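import Pool.Agent.PQP.StmtsZ

set_option autoImplicit false

open scoped InnerProductSpace Topology ContDiff Manifold
open MeasureTheory Filter Set

noncomputable section

namespace Pool.Agent.PQP.H53

open Pool.Agent.Helper42_Paneitz Pool.Agent.Helper82_Vir Pool.Agent.FLX

theorem act_act (P : Submodule ℝ E5) (x : S4) : act P.reflection (act P.reflection x) = x := by
  apply Subtype.ext
  rw [act_coe, act_coe]
  exact P.reflection_reflection (x : E5)

/-- the reflection as a measurable equivalence -/
def aeq (P : Submodule ℝ E5) : S4 ≃ᵐ S4 where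
  toFun := act P.reflection
  invFun := act P.reflection
  left_inv := act_act P
  right_inv := act_act P
  measurable_toFun := (continuous_act _).measurable
  measurable_invFun := (continuous_act _).measurable

theorem integral_refl {V : Type} [NormedAddCommGroup V] [NormedSpace ℝ V] (P : Submodule ℝ E5)
    (F : S4 → V) : ∫ y, F (act P.reflection y) ∂sig = ∫ y, F y ∂sig :=
  MeasurePreserving.integral_comp' (f := aeq P) (measurePreserving_act P.reflection) F

theorem inner_refl (P : Submodule ℝ E5) (x y : S4) :
    ⟪(act P.reflection x : E5), (act P.reflection y : E5)⟫_ℝ = ⟪(x : E5), (y : E5)⟫_ℝ := by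
  rw [act_coe, act_coe, LinearIsometryEquiv.inner_map_map]

theorem ell_refl (P : Submodule ℝ E5) (x y : S4) :
    ell (act P.reflection x) (act P.reflection y) = ell x y := by
  unfold ell
  rw [inner_refl]

theorem inv_K (P : Submodule ℝ E5) {f : S4 → ℝ} (hf : Inv P f) : Inv P (K f) := by
  intro x
  unfold K
  congr 1
  rw [← integral_refl P fun y => ell (act P.reflection x) y * (f y - avg f)]
  apply integral_congr_ae
  refine Eventually.of_forall fun y => ?_
  show ell (act P.reflection x) (act P.reflection y) * (f (act P.reflection y) - avg f) =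
    ell x y * (f y - avg f)
  rw [ell_refl, hf y]

theorem inv_Aop (P : Submodule ℝ E5) {f : S4 → ℝ} (hf : Inv P f) : Inv P (Aop f) := by
  intro x
  unfold Aop
  have h1 := inv_K P hf x
  have h2 : ∫ y, ⟪(act P.reflection x : E5), (y : E5)⟫_ℝ * f y ∂sig =
      ∫ y, ⟪(x : E5), (y : E5)⟫_ℝ * f y ∂sig := by
    rw [← integral_refl P fun y : S4 => ⟪(act P.reflection x : E5), (y : E5)⟫_ℝ * f y]
    apply integral_congr_ae
    refine Eventually.of_forall fun y => ?_
    show ⟪(act P.reflection x : E5), (act P.reflection y : E5)⟫_ℝ * f (act P.reflection y) =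
      ⟪(x : E5), (y : E5)⟫_ℝ * f y
    rw [inner_refl, hf y]
  rw [h1, h2]

theorem mem_of_inv (P : Submodule ℝ E5) {f : S4 → ℝ} (hf : Inv P f) :
    ∫ y : S4, f y • (y : E5) ∂sig ∈ P := by
  rw [← Submodule.reflection_eq_self_iff (K := P)]
  have h1 : ∫ y : S4, P.reflection (f y • (y : E5)) ∂sig =
      P.reflection (∫ y : S4, f y • (y : E5) ∂sig) :=
    P.reflection.toContinuousLinearEquiv.integral_comp_comm _
  rw [← h1, ← integral_refl P fun y : S4 => P.reflection (f y • (y : E5))]
  apply integral_congr_ae
  refine Eventually.of_forall fun y => ?_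
  show P.reflection (f (act P.reflection y) • (act P.reflection y : E5)) = f y • (y : E5)
  rw [hf y, map_smul, act_coe, P.reflection_reflection]

/-- INV -/
theorem inv (moa : MoaStmt) : InvStmt := by
  intro P ψ h b t hψ hh _ _ hb hbn
  obtain ⟨a1, a2, a3, a4, a5, a6⟩ := moa b hbn
  have hRb : P.reflection b = b := (Submodule.reflection_eq_self_iff (K := P) b).2 hb
  have hmob : ∀ x, mob b (act P.reflection x) = act P.reflection (mob b x) := by
    intro x
    apply Subtype.ext
    rw [a2, act_coe, act_coe, a2]
    have h1 : ⟪b, P.reflection (x : E5)⟫_ℝ = ⟪b, (x : E5)⟫_ℝ := by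
      have h2 := LinearIsometryEquiv.inner_map_map P.reflection b (x : E5)
      rwa [hRb] at h2
    unfold mobE
    rw [h1, map_smul, map_add, map_smul, map_smul, hRb]
  have hpsi : Inv P fun y => ψ (mob b y) := by
    intro x
    show ψ (mob b (act P.reflection x)) = ψ (mob b x)
    rw [hmob x, hψ]
  have hq : Inv P (qt ψ t b) := by
    intro x
    unfold qt
    have := hpsi x
    rw [show ψ (mob b (act P.reflection x)) = ψ (mob b x) from this]
  have hN : Inv P (Nn (qt ψ t b) h) := by
    intro x
    unfold Nn
    rw [hq x, hh x]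
  refine ⟨hmob, ?_, mem_of_inv P hN, mem_of_inv P hpsi, fun f _ hf => mem_of_inv P hf⟩
  intro x
  unfold Tf
  rw [inv_Aop P hh x, inv_K P hN x]

end Pool.Agent.PQP.H53
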